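import Pool.Agent.H47R2.EA.FINAL
import Pool.Agent.H47R2.EA.BALL
import Pool.Agent.H47R2.EA.BASIC
import Pool.Agent.H47R2.EA.COMB
import Pool.Agent.H47R2.EA.COV1
import Pool.Agent.H47R2.EA.COV2
import Pool.Agent.H47R2.EA.DIFF
import Pool.Agent.H47R2.EA.EXPL
import Pool.Agent.H47R2.EA.GIBBSE
import Pool.Agent.H47R2.EA.GIBBSU
import Pool.Agent.H47R2.EA.GOOD
import Pool.Agent.H47R2.EA.INF
import Pool.Agent.H47R2.EA.ISING
import Pool.Agent.H47R2.EA.KHIN
import Pool.Agent.H47R2.EA.KR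
import Pool.Agent.H47R2.EA.NET
import Pool.Agent.H47R2.EA.REDUCE
import Pool.Agent.H47R2.EA.SIGN
import Pool.Agent.H47R2.EA.TRACE
import Pool.Agent.H613R2.EA.CHAIN

/-!
# Edwards–Anderson spin glass: almost sure uniqueness of the Gibbs state for `β ≤ c / √d`
-/

set_option autoImplicit false

open MeasureTheory

namespace Pool.Agent.Results.MP_81d17b_pr.UniquenessSqrtDim

open Pool.H47EA

/-- There is an absolute constant `c > 0` such that, for every dimension `d ≥ 1` and almost every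
realisation `J` of the symmetric `±1` couplings, there is exactly one Gibbs state at `(β, J)` for
every `β ∈ (0, c/√d]`; in particular `β_c(J) ≥ c/√d` almost surely. -/
theorem result :
    ∃ c : ℝ, 0 < c ∧ ∀ d : ℕ, 1 ≤ d → ∀ᵐ J ∂(couplingLaw d),
      (∀ β : ℝ, 0 < β → β ≤ c / √(d : ℝ) → ∃! π : Measure (Site d → Bool), IsGibbs β J π) ∧
      ENNReal.ofReal (c / √(d : ℝ)) ≤ betaC J := by
  have hb : St_BASIC := t_BASIC
  have hbl : St_BALL := t_BALL
  have hi : St_ISING := t_ISING (t_COV2 t_COV1)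
  have hinf : St_INF := t_INF hb hi t_DIFF t_REDUCE
  have hkr : St_KR := t_KR t_KHIN (t_NET hbl)
  have hg : St_GOOD := t_GOOD t_COMB hkr t_TRACE t_SIGN
  exact main_of hb hinf (t_EXPL hb) t_CHAIN t_GIBBSU (t_GIBBSE hb) hg hbl

end Pool.Agent.Results.MP_81d17b_pr.UniquenessSqrtDim
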